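import Pool.Agent.X79.EC.Stm

/-!
# Counting edges by the degrees of the ends
-/

set_option autoImplicit false

namespace Pool.Agent.X319.EC

open Finset Polynomial
open Pool.Agent.X79.EC

theorem t_DEG : S_DEG := by
  intro V _ _ G _ hdeg
  classical
  set D2 : Finset V := univ.filter (fun v : V => G.degree v = 2) with hD2
  have h1 : ∑ e ∈ G.edgeFinset, (D2.filter (fun v => v ∈ e)).card = 2 * nd G 2 := by
    have := Finset.sum_card_bipartiteAbove_eq_sum_card_bipartiteBelow
      (s := G.edgeFinset) (t := D2) (fun (e : Sym2 V) (v : V) => v ∈ e)
    simp only [Finset.bipartiteAbove, Finset.bipartiteBelow] at this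
    rw [this]
    have h2 : ∀ v ∈ D2, (G.edgeFinset.filter (fun e => v ∈ e)).card = 2 := by
      intro v hv
      have : G.edgeFinset.filter (fun e => v ∈ e) = G.incidenceFinset v := by
        rw [G.incidenceFinset_eq_filter]
      rw [this, G.card_incidenceFinset_eq_degree]
      exact (Finset.mem_filter.1 hv).2
    rw [Finset.sum_congr rfl h2, Finset.sum_const, smul_eq_mul, mul_comm]
    rfl
  rw [← h1, m22, mhh, Finset.card_filter, Finset.card_filter, Finset.card_eq_sum_ones,
    ← Finset.sum_add_distrib, ← Finset.sum_add_distrib]
  refine Finset.sum_congr rfl fun e he => ?_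
  induction e using Sym2.ind with
  | _ x y =>
    have hadj : G.Adj x y := by simpa using he
    have hne : x ≠ y := hadj.ne
    have hx := hdeg x
    have hy := hdeg y
    have hf : D2.filter (fun v => v ∈ s(x, y)) =
        (if G.degree x = 2 then {x} else ∅) ∪ (if G.degree y = 2 then {y} else ∅) := by
      ext v
      simp only [hD2, Finset.mem_filter, Finset.mem_univ, true_and, Sym2.mem_iff, Finset.mem_union]
      split_ifs with h1 h2 h2
      · simp only [Finset.mem_singleton]
        constructor
        · rintro ⟨_, h⟩; exact h
        · rintro (rfl | rfl)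
          · exact ⟨h1, Or.inl rfl⟩
          · exact ⟨h2, Or.inr rfl⟩
      · simp only [Finset.mem_singleton, Finset.notMem_empty, or_false]
        constructor
        · rintro ⟨h, rfl | rfl⟩
          · rfl
          · exact absurd h h2
        · rintro rfl; exact ⟨h1, Or.inl rfl⟩
      · simp only [Finset.mem_singleton, Finset.notMem_empty, false_or]
        constructor
        · rintro ⟨h, rfl | rfl⟩
          · exact absurd h h1
          · rfl
        · rintro rfl; exact ⟨h2, Or.inr rfl⟩
      · simp only [Finset.notMem_empty, or_false, iff_false, not_and, not_or]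
        rintro h
        constructor
        · rintro rfl; exact h1 h
        · rintro rfl; exact h2 h
    rw [hf, Finset.card_union_of_disjoint]
    · simp only [Sym2.mem_iff, forall_eq_or_imp, forall_eq]
      by_cases h1 : G.degree x = 2 <;> by_cases h2 : G.degree y = 2
      · simp [h1, h2]
      · simp [h1, h2]
      · simp [h1, h2]
      · have h3 : 3 ≤ G.degree x := by omega
        have h4 : 3 ≤ G.degree y := by omega
        simp [h1, h2, h3, h4]
    · split_ifs <;> simp [hne]

end Pool.Agent.X319.EC
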