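import Pool.Agent.X79.EC.Stm

/-!
# Inclusion and exclusion for the edge cover polynomial
-/

set_option autoImplicit false

namespace Pool.Agent.X319.EC

open Finset Polynomial
open Pool.Agent.X79.EC

theorem t_IE : S_IE := by
  intro V _ _ G _
  classical
  have hpow : ∀ A : Finset (Sym2 V), ∑ S ∈ A.powerset, (X - 1 : ℤ[X]) ^ S.card = X ^ A.card := by
    intro A
    have := Finset.sum_pow_mul_eq_add_pow (X - 1 : ℤ[X]) 1 A
    simpa using this
  have hcomp : (pZ G).comp (X - 1) = ∑ S ∈ covs G, (X - 1 : ℤ[X]) ^ S.card := by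
    simp only [pZ, Polynomial.comp, Polynomial.eval₂_finsetSum, Polynomial.eval₂_X_pow]
  rw [hcomp, covs, Finset.sum_filter]
  have hU : ∀ S ∈ G.edgeFinset.powerset,
      (if (∀ v : V, ∃ e ∈ S, v ∈ e) then (X - 1 : ℤ[X]) ^ S.card else 0) =
      ∑ W : Finset V, C ((-1 : ℤ) ^ W.card) *
        (if (∀ e ∈ S, ∀ v ∈ e, v ∉ W) then (X - 1 : ℤ[X]) ^ S.card else 0) := by
    intro S _
    set U : Finset V := univ.filter (fun v => ∀ e ∈ S, v ∉ e) with hU
    have h1 := Finset.sum_powerset_neg_one_pow_card (x := U)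
    have h2 : (∀ v : V, ∃ e ∈ S, v ∈ e) ↔ U = ∅ := by
      rw [Finset.eq_empty_iff_forall_notMem]
      simp only [hU, Finset.mem_filter, Finset.mem_univ, true_and, not_forall, not_not, exists_prop]
    have h3 : (univ : Finset (Finset V)).filter (fun W => ∀ e ∈ S, ∀ v ∈ e, v ∉ W) = U.powerset := by
      ext W
      simp only [Finset.mem_filter, Finset.mem_univ, true_and, Finset.mem_powerset,
        Finset.subset_iff, hU]
      constructor
      · intro h v hv e he hve
        exact h e he v hve hv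
      · intro h e he v hve hv
        exact h hv e he hve
    have h4 : ∑ W : Finset V, C ((-1 : ℤ) ^ W.card) *
        (if (∀ e ∈ S, ∀ v ∈ e, v ∉ W) then (X - 1 : ℤ[X]) ^ S.card else 0) =
        C (∑ W ∈ U.powerset, (-1 : ℤ) ^ W.card) * (X - 1 : ℤ[X]) ^ S.card := by
      rw [← h3, Finset.sum_filter, map_sum, Finset.sum_mul]
      refine Finset.sum_congr rfl fun W _ => ?_
      split_ifs <;> simp
    rw [h4, h1]
    by_cases h : U = ∅
    · rw [if_pos (h2.2 h), if_pos h]; simp
    · rw [if_neg (fun h' => h (h2.1 h')), if_neg h]; simp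
  rw [Finset.sum_congr rfl hU, Finset.sum_comm]
  refine Finset.sum_congr rfl fun W _ => ?_
  rw [← Finset.mul_sum, ← Finset.sum_filter, ← hpow]
  congr 1
  refine Finset.sum_congr ?_ fun _ _ => rfl
  ext S
  simp only [Finset.mem_filter, Finset.mem_powerset, Finset.subset_iff]
  constructor
  · rintro ⟨h1, h2⟩ e he
    exact ⟨h1 he, h2 e he⟩
  · intro h
    exact ⟨fun e he => (h he).1, fun e he => (h he).2⟩

end Pool.Agent.X319.EC
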